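import Mathlib

/-! Independent random convex sets in Hilbert space with a small compact common mean and no law of large numbers. -/

open MeasureTheory ProbabilityTheory Set Metric Function
open scoped Pointwise BoundedContinuousFunction InnerProductSpace

namespace Pool.Agent.H.MP_b91784_pr

section
variable {X : Type} [NormedAddCommGroup X] [NormedSpace ℝ X]

def BConvex (X : Type) [NormedAddCommGroup X] [NormedSpace ℝ X] : Prop :=
  ∃ k : ℕ, 2 ≤ k ∧ ∃ η > (0 : ℝ), ∀ x : Fin k → X, (∀ i, ‖x i‖ ≤ 1) →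
    ∃ s : Fin k → ℝ, (∀ i, s i = 1 ∨ s i = -1) ∧ ‖∑ i, s i • x i‖ ≤ k * (1 - η)

def Rep (A : Set X) (z : sphere (0 : StrongDual ℝ X) 1 →ᵇ ℝ) : Prop :=
  ∀ f : sphere (0 : StrongDual ℝ X) 1, IsLUB (f.1 '' A) (z f)

def Sq {Ω : Type} [MeasurableSpace Ω] (P : Measure Ω) (U : Set X) (Ψ : ℕ → Ω → Set X) : Prop :=
  (U.Nonempty ∧ Convex ℝ U ∧ Bornology.IsBounded U) ∧
  (∀ n ω, (Ψ n ω).Nonempty ∧ Convex ℝ (Ψ n ω) ∧ Ψ n ω ⊆ closedBall 0 1) ∧
  ∃ (r : sphere (0 : StrongDual ℝ X) 1 →ᵇ ℝ) (R : ℕ → Ω → sphere (0 : StrongDual ℝ X) 1 →ᵇ ℝ),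
    Rep U r ∧ (∀ n ω, Rep (Ψ n ω) (R n ω)) ∧
    (∀ n, @Measurable _ _ _ (borel _) (R n) ∧ StronglyMeasurable (R n) ∧ Integrable (R n) P ∧ ∫ ω, R n ω ∂P = r) ∧
    iIndepFun (m := fun _ => borel _) R P

lemma rep_ex {A : Set X} (n : A.Nonempty) (b : A ⊆ closedBall 0 1) : ∃ z, Rep A z := by
  have u (f : StrongDual ℝ X) {a} (h : a ∈ A) : |f a| ≤ ‖f‖ :=
    (f.le_opNorm a).trans (mul_le_of_le_one_right (norm_nonneg _) (by simpa using b h))
  have B (f : StrongDual ℝ X) : BddAbove (f '' A) := ⟨‖f‖, forall_mem_image.2 fun a h => (abs_le.1 (u f h)).2⟩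
  have L : LipschitzWith 1 fun f : sphere (0 : StrongDual ℝ X) 1 => sSup (f.1 '' A) := by
    refine .of_le_add fun f g => csSup_le (n.image _) (forall_mem_image.2 fun a h => ?_)
    have := (abs_le.1 (u (f.1 - g.1) h)).2
    rw [ContinuousLinearMap.sub_apply] at this
    rw [Subtype.dist_eq, dist_eq_norm]
    linarith [le_csSup (B g.1) (mem_image_of_mem _ h)]
  refine ⟨.ofNormedAddCommGroup _ L.continuous 1 fun f => ?_, fun f => isLUB_csSup (n.image _) (B _)⟩
  obtain ⟨a, h⟩ := n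
  have e : ‖f.1‖ = 1 := by simp
  exact abs_le.2 ⟨(e ▸ abs_le.1 (u f h)).1.trans (le_csSup (B _) (mem_image_of_mem _ h)),
    csSup_le ⟨_, mem_image_of_mem _ h⟩ (forall_mem_image.2 fun a h => (e ▸ abs_le.1 (u f h)).2)⟩

lemma Rep.add {A B : Set X} {z w} (a : Rep A z) (b : Rep B w) : Rep (A + B) (z + w) := fun f => by
  rw [image_add]
  exact (a f).add (b f)

lemma Rep.smul {A : Set X} {z} {t : ℝ} (h : 0 ≤ t) (a : Rep A z) : Rep (t • A) (t • z) := fun f => by
  rw [image_smul_set]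
  exact (a f).mul_left h

lemma Rep.sum {ι : Type} {A : ι → Set X} {z : ι → _} (a : ∀ j, Rep (A j) (z j)) (s : Finset ι) :
    Rep (∑ j ∈ s, A j) (∑ j ∈ s, z j) := by
  induction s using Finset.cons_induction with
  | empty => intro f; simp [← singleton_zero]
  | cons j s h ih => rw [Finset.sum_cons, Finset.sum_cons]; exact (a j).add ih

lemma Rep.uni {A : Set X} {z w} (a : Rep A z) (b : Rep A w) : z = w := by
  ext f
  exact (a f).unique (b f)

def T (S : ℕ → Set X) : Set X := (fun u => ∑' k, u k) '' univ.pi S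

variable [CompleteSpace X] {S : ℕ → Set X} {ρ : ℕ → ℝ} {b : ℝ} (hρ : HasSum ρ b) (hS : ∀ k, S k ⊆ closedBall 0 (ρ k))
include hρ hS

lemma T_sm {u : ℕ → X} (h : u ∈ univ.pi S) : Summable u :=
  hρ.summable.of_norm_bounded fun k => by simpa using hS k (h k trivial)

lemma T_le : T S ⊆ closedBall 0 b := forall_mem_image.2 fun u h =>
  mem_closedBall_zero_iff.2 (tsum_of_norm_bounded hρ fun k => by simpa using hS k (h k trivial))

lemma T_cv (c : ∀ k, Convex ℝ (S k)) : Convex ℝ (T S) := by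
  rintro _ ⟨u, hu, rfl⟩ _ ⟨v, hv, rfl⟩ s t s0 t0 e
  refine ⟨s • u + t • v, convex_pi (fun k _ => c k) hu hv s0 t0 e, ?_⟩
  simp only [Pi.add_apply, Pi.smul_apply]
  rw [((T_sm hρ hS hu).const_smul s).tsum_add ((T_sm hρ hS hv).const_smul t), (T_sm hρ hS hu).tsum_const_smul,
    (T_sm hρ hS hv).tsum_const_smul]

lemma T_cp (c : ∀ k, IsCompact (S k)) : IsCompact (T S) :=
  (isCompact_univ_pi c).image_of_continuousOn (continuousOn_tsum (fun i => (continuous_apply i).continuousOn)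
    hρ.summable fun k u h => by simpa using hS k (h k trivial))

lemma T_eq (i : ℕ) : T S = S i + T (update S i 0) := by
  refine Subset.antisymm (forall_mem_image.2 fun u h => ⟨u i, h i trivial, _, ⟨update u i 0, fun k _ => ?_, rfl⟩, ?_⟩) ?_
  · by_cases e : k = i
    · simp [e]
    · simpa [e] using h k trivial
  · simp only [update_apply]
    exact ((T_sm hρ hS h).tsum_eq_add_tsum_ite i).symm
  · rintro _ ⟨a, ha, _, ⟨w, hw, rfl⟩, rfl⟩
    have m : update w i a ∈ univ.pi S := fun k _ => by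
      by_cases e : k = i
      · simpa [e]
      · simpa [e] using hw k trivial
    refine ⟨_, m, ((T_sm hρ hS m).tsum_eq_add_tsum_ite i).trans ?_⟩
    simp only [update_self, add_right_inj]
    refine tsum_congr fun k => ?_
    split_ifs with e
    · simpa [e, eq_comm] using hw i trivial
    · simp [e]

end

abbrev I := Σ n : ℕ, Fin n → ℕ

abbrev E := lp (fun _ : I => ℝ) 2

lemma bc : BConvex E := by
  refine ⟨2, le_rfl, 1 / 4, by norm_num, fun x h => ?_⟩
  have := parallelogram_law_with_norm ℝ (x 0) (x 1)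
  have a := h 0
  have b := h 1
  have c := norm_nonneg (x 0)
  have d := norm_nonneg (x 1)
  by_cases e : ‖x 0 + x 1‖ ≤ 3 / 2
  · exact ⟨![1, 1], by simp, by simp; linarith⟩
  · refine ⟨![1, -1], by simp, ?_⟩
    simp only [Fin.sum_univ_two, Matrix.cons_val_zero, Matrix.cons_val_one, one_smul, neg_smul, ← sub_eq_add_neg]
    nlinarith [norm_nonneg (x 0 - x 1)]

noncomputable def e (s : I) : E := lp.single 2 s 1

def J (N : ℕ → ℕ) (i j : ℕ) : Set I := {s | s.1 ≤ 2 * i + 1 ∧ (∀ k, s.2 k < N k) ∧ ∃ h : i < s.1, s.2 ⟨i, h⟩ = j}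

def A (N : ℕ → ℕ) (i j : ℕ) : Set E := convexHull ℝ (insert 0 (e '' J N i j))

lemma A_cp (N i j) : IsCompact (A N i j) := by
  refine (((Finset.finite_toSet ((Finset.range (2 * i + 2)).sigma fun n => Fintype.piFinset fun k : Fin n =>
    Finset.range (N k))).subset fun s h => ?_).image _).insert _ |>.isCompact_convexHull ℝ
  simpa [Nat.lt_succ_iff] using ⟨h.1, h.2.1⟩

lemma A_le (N i j) : A N i j ⊆ closedBall 0 1 :=
  convexHull_min (insert_subset (by simp) (forall_mem_image.2 fun s _ => by simp [e])) (convex_closedBall _ _)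

lemma A_or {N i j k} (h : j ≠ k) {a b} (ha : a ∈ A N i j) (hb : b ∈ A N i k) : ⟪a, b⟫_ℝ = 0 := by
  have s (j) : A N i j ⊆ Submodule.span ℝ (e '' J N i j) :=
    convexHull_min (insert_subset (zero_mem _) Submodule.subset_span) (Submodule.convex _)
  refine (Submodule.isOrtho_span.2 ?_).inner_eq (s j ha) (s k hb)
  rintro _ ⟨s, ⟨-, -, p, rfl⟩, rfl⟩ _ ⟨t, ⟨-, -, q, rfl⟩, rfl⟩
  have : s ≠ t := fun r => h (by subst r; rfl)
  simp [e, lp.inner_single_left, lp.single_apply, this]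

lemma A_sum {N i n} {x} (h : x ∈ ∑ j : Fin n, A N i j) : ‖x‖ ^ 2 ≤ n := by
  obtain ⟨a, ha, rfl⟩ := (mem_fintype_sum _ _).1 h
  rw [← real_inner_self_eq_norm_sq, sum_inner]
  refine (Finset.sum_le_sum fun j _ => ?_).trans_eq (show ∑ _ : Fin n, (1 : ℝ) = n by simp)
  rw [inner_sum, Finset.sum_eq_single j (fun k _ r => A_or (fun q => r (Fin.ext q).symm) (ha j) (ha k)) (by simp),
    real_inner_self_eq_norm_sq]
  exact pow_le_one₀ (norm_nonneg _) (by simpa using A_le N i j (ha j))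

theorem main {δ : ℝ} (hδ : 0 < δ) : ∃ (Ω : Type) (_ : MeasurableSpace Ω) (P : Measure Ω) (_ : IsProbabilityMeasure P)
    (U : Set E) (Ψ : ℕ → Ω → Set E), Sq P U Ψ ∧ IsCompact U ∧ U ⊆ closedBall 0 δ ∧
      ∀ ω (n : ℕ), 1 ≤ n → ∃ a ∈ (n : ℝ)⁻¹ • ∑ i ∈ Finset.range n, Ψ i ω, 1 / 4 ≤ ‖a‖ := by
  obtain ⟨m, hm⟩ := exists_pow_lt_of_lt_one (lt_min hδ one_half_pos) one_half_lt_one
  let N : ℕ → ℕ := fun k => 4 ^ (k + m)
  have N0 (k) : NeZero (N k) := ⟨by positivity⟩
  let S : ℕ → Set E := fun k => (N k : ℝ)⁻¹ • ∑ j : Fin (N k), (2 : ℝ)⁻¹ • A N k j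
  have hρ : HasSum (fun k => (1 / 2 : ℝ) ^ m / 2 / 2 ^ k) ((1 / 2) ^ m) := hasSum_geometric_two' _
  have hS (k) : S k ⊆ closedBall 0 ((1 / 2 : ℝ) ^ m / 2 / 2 ^ k) := by
    simp only [S, ← Finset.smul_sum]
    rintro _ ⟨_, ⟨x, h, rfl⟩, rfl⟩
    have a : ‖x‖ ≤ 2 ^ (k + m) := abs_le_of_sq_le_sq' ((A_sum h).trans_eq (by
      simp only [N]; push_cast; rw [← pow_mul, mul_comm, pow_mul]; norm_num)) (by positivity) |>.2
    simp only [mem_closedBall_zero_iff, norm_smul, N, norm_inv, Real.norm_natCast, Real.norm_ofNat]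
    refine (mul_le_mul_of_nonneg_left (mul_le_mul_of_nonneg_left a (by norm_num)) (by positivity)).trans_eq ?_
    push_cast
    rw [show (4 : ℝ) = 2 * 2 by norm_num, mul_pow, pow_add, one_div, inv_pow]
    field_simp
  have A0 (i j) : 0 ∈ A N i j := subset_convexHull _ _ (mem_insert _ _)
  have S0 (k) : 0 ∈ S k := zero_mem_smul_set ((mem_fintype_sum _ _).2 ⟨0, fun j => zero_mem_smul_set (A0 _ _), by simp⟩)
  have Sc (k) : Convex ℝ (S k) := (convex_sum _ fun j _ => (convex_convexHull _ _).smul _).smul _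
  have hW (i k) : update S i 0 k ⊆ closedBall 0 ((1 / 2 : ℝ) ^ m / 2 / 2 ^ k) := by
    by_cases e : k = i
    · simp [e]
      positivity
    · simpa [e] using hS k
  have W0 (i) : 0 ∈ T (update S i 0) := ⟨0, fun k _ => by by_cases e : k = i <;> simp [e, S0], tsum_zero⟩
  have Wc (i) : Convex ℝ (T (update S i 0)) := T_cv hρ (hW i) fun k => by
    by_cases e : k = i
    · rw [e, update_self]; exact convex_singleton 0
    · simpa [e] using Sc k
  have W1 (i) := (T_le hρ (hW i)).trans (closedBall_subset_closedBall (hm.le.trans (min_le_right _ _)))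
  have U1 := T_le hρ hS
  have Uc : IsCompact (T S) := T_cp hρ hS fun k => (Finset.sum_induction _ IsCompact (fun _ _ => IsCompact.add)
    isCompact_singleton fun j _ => (A_cp _ _ _).smul _).smul _
  choose a ha using fun i j => rep_ex ⟨_, A0 i j⟩ (A_le N i j)
  choose w hw using fun i => rep_ex ⟨_, W0 i⟩ ((W1 i).trans (closedBall_subset_closedBall (by norm_num)))
  have rp (i) := (T_eq hρ hS i).symm ▸ ((Rep.sum (fun j : Fin (N i) => (ha i j).smul (t := 2⁻¹) (by norm_num)) _).smul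
    (t := (N i : ℝ)⁻¹) (by positivity)).add (hw i)
  let μ (i : ℕ) : Measure (Fin (N i)) := uniformOn univ
  letI : MeasurableSpace (sphere (0 : StrongDual ℝ E) 1 →ᵇ ℝ) := borel _
  let g (i) (j : Fin (N i)) := (2 : ℝ)⁻¹ • a i j + w i
  have mg (i) : Measurable (g i) := .of_discrete
  refine ⟨∀ i, Fin (N i), inferInstance, .infinitePi μ, inferInstance, T S,
    fun i ω => (2 : ℝ)⁻¹ • A N i (ω i) + T (update S i 0), ⟨⟨⟨_, 0, fun k _ => S0 k, rfl⟩, T_cv hρ hS Sc,
      Uc.isBounded⟩, fun n ω => ⟨⟨_, add_mem_add (zero_mem_smul_set (A0 _ _)) (W0 n)⟩,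
      ((convex_convexHull _ _).smul _).add (Wc n), ?_⟩, _, fun i ω => g i (ω i), rp 0,
      fun n ω => ((ha _ _).smul (by norm_num)).add (hw n), fun n => ⟨(mg n).comp (measurable_pi_apply n),
        (StronglyMeasurable.of_discrete (f := g n)).comp_measurable (measurable_pi_apply n), ?_, ?_⟩,
      iIndepFun_infinitePi mg⟩, Uc, U1.trans (closedBall_subset_closedBall (hm.le.trans (min_le_left _ _))),
    fun ω n l => ?_⟩
  · rintro _ ⟨_, ⟨x, p, rfl⟩, y, q, rfl⟩
    have p := mem_closedBall_zero_iff.1 (A_le _ _ _ p)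
    have q := mem_closedBall_zero_iff.1 (W1 n q)
    refine mem_closedBall_zero_iff.2 ((norm_add_le _ _).trans ?_)
    simp only [norm_smul, norm_inv, Real.norm_ofNat]
    linarith
  · exact (measurePreserving_eval_infinitePi μ n).integrable_comp_of_integrable (g := g n) .of_finite
  · rw [(rp 0).uni (rp n), ← integral_map (measurable_pi_apply n).aemeasurable
      StronglyMeasurable.of_discrete.aestronglyMeasurable, (measurePreserving_eval_infinitePi μ n).map_eq,
      integral_fintype .of_finite]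
    simp [μ, g, Measure.real, uniformOn_univ, ← Finset.smul_sum, Finset.sum_add_distrib, ← Nat.cast_smul_eq_nsmul ℝ,
      (N0 n).ne]
  · let s : I := ⟨n, fun k => ω k⟩
    refine ⟨_, smul_mem_smul_set (finsetSum_mem_finsetSum _ _
      (fun i => (2 : ℝ)⁻¹ • (if n ≤ 2 * i + 1 then (1 : ℝ) else 0) • e s + 0) fun i t => add_mem_add
        (smul_mem_smul_set ?_) (W0 i)), ?_⟩
    · split_ifs with r
      · exact subset_convexHull _ _ (.inr ⟨s, ⟨r, fun k => (ω k).2, Finset.mem_range.1 t, rfl⟩, (one_smul _ _).symm⟩)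
      · rw [zero_smul]
        exact A0 _ _
    · have c := Finset.card_le_card (show Finset.Ico (n / 2) n ⊆ (Finset.range n).filter fun i => n ≤ 2 * i + 1 from
        fun i t => by simp at t ⊢; omega)
      have d : (n : ℝ) ≤ 2 * ((Finset.range n).filter fun i => n ≤ 2 * i + 1).card := by
        rw [Nat.card_Ico] at c
        exact_mod_cast (by omega)
      have n0 : (0 : ℝ) < n := by positivity
      simp only [add_zero, ← Finset.smul_sum, ← Finset.sum_smul, Finset.sum_boole, norm_smul, e, lp.norm_single,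
        norm_inv, Real.norm_natCast, Real.norm_ofNat, norm_one, Nat.ofNat_pos]
      rw [inv_mul_eq_div, le_div_iff₀ n0]
      linarith

theorem haus : ∃ (Ω : Type) (_ : MeasurableSpace Ω) (P : Measure Ω) (_ : IsProbabilityMeasure P)
    (U : Set E) (Ψ : ℕ → Ω → Set E), Sq P U Ψ ∧ IsCompact U ∧
      ∀ ω (n : ℕ), 1 ≤ n → ENNReal.ofReal (1 / 8) ≤ hausdorffEDist ((n : ℝ)⁻¹ • ∑ i ∈ Finset.range n, Ψ i ω) U := by
  obtain ⟨Ω, _, P, _, U, Ψ, h, c, b, l⟩ := main (δ := 1 / 8) (by norm_num)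
  refine ⟨Ω, _, P, ‹_›, U, Ψ, h, c, fun ω n t => ?_⟩
  obtain ⟨a, p, q⟩ := l ω n t
  refine le_trans (le_infEDist.2 fun y r => ?_) (infEDist_le_hausdorffEDist_of_mem p)
  rw [edist_dist, dist_eq_norm]
  refine ENNReal.ofReal_le_ofReal ?_
  linarith [norm_sub_norm_le a y, mem_closedBall_zero_iff.1 (b r)]

def NoL1 (X : Type) [NormedAddCommGroup X] [NormedSpace ℝ X] : Prop :=
  ∃ n : ℕ, ∃ ε > (0 : ℝ), ¬ ∃ (x : Fin n → X) (c : ℝ), 0 < c ∧ ∀ a : Fin n → ℝ,
    c * ∑ i, |a i| ≤ ‖∑ i, a i • x i‖ ∧ ‖∑ i, a i • x i‖ ≤ (1 + ε) * c * ∑ i, |a i|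

lemma nl : NoL1 E := by
  refine ⟨2, 1 / 4, by norm_num, fun ⟨x, c, c0, h⟩ => ?_⟩
  have := parallelogram_law_with_norm ℝ (x 0) (x 1)
  have a := (h ![1, 0]).2
  have b := (h ![0, 1]).2
  have u := (h ![1, 1]).1
  have v := (h ![1, -1]).1
  simp [← sub_eq_add_neg] at a b u v
  nlinarith [norm_nonneg (x 0), norm_nonneg (x 1), mul_self_le_mul_self (by positivity) u,
    mul_self_le_mul_self (by positivity) v, mul_self_le_mul_self (norm_nonneg _) a, mul_self_le_mul_self (norm_nonneg _) b,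
    mul_pos c0 c0]

end Pool.Agent.H.MP_b91784_pr
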